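import Pool.Agent.Helper76.TC.Goals

/-!
# Project TC (MP_ccd65d_gt), packet CR
-/

set_option autoImplicit false

open Set

namespace Pool.Agent.Helper85.TC.CR

open Pool.Agent.Helper76.TC

lemma fo_eq (t : ℝ) (m : ℤ) (h : |t - m| ≤ 1 / 2) : fo t = |t - m| := by
  unfold fo
  apply le_antisymm (round_le t m)
  by_cases hm : round t = m
  · rw [hm]
  · have h1 : (1 : ℝ) ≤ |((round t : ℤ) : ℝ) - m| := by
      have h2 : (1 : ℤ) ≤ |round t - m| := Int.one_le_abs (sub_ne_zero.2 hm)
      have h3 : ((1 : ℤ) : ℝ) ≤ ((|round t - m| : ℤ) : ℝ) := by exact_mod_cast h2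
      simpa using h3
    have h4 : |((round t : ℤ) : ℝ) - m| ≤ |t - round t| + |t - m| := by
      have : ((round t : ℤ) : ℝ) - m = -(t - round t) + (t - m) := by ring
      rw [this]
      calc |-(t - round t) + (t - m)| ≤ |-(t - round t)| + |t - m| := abs_add_le _ _
        _ = _ := by rw [abs_neg]
    linarith

lemma fo_nonneg (t : ℝ) : 0 ≤ fo t := abs_nonneg _

lemma fo_le (t : ℝ) : fo t ≤ 1 / 2 := abs_sub_round t

/-- the point of the cell of `x` with `fo = a` -/
noncomputable def pt (x a : ℝ) : ℝ := if (round x : ℝ) ≤ x then round x + a else round x - a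

lemma pt_fo (x a : ℝ) (h0 : 0 ≤ a) (h1 : a ≤ 1 / 2) : fo (pt x a) = a := by
  unfold pt
  split_ifs with h
  · rw [fo_eq _ (round x)]
    · rw [add_sub_cancel_left, abs_of_nonneg h0]
    · rw [add_sub_cancel_left, abs_of_nonneg h0]; exact h1
  · have : (round x : ℝ) - a - round x = -a := by ring
    rw [fo_eq _ (round x)]
    · rw [this, abs_neg, abs_of_nonneg h0]
    · rw [this, abs_neg, abs_of_nonneg h0]; exact h1

lemma pt_dist (x a : ℝ) : |pt x a - x| = |a - fo x| := by
  unfold pt fo
  split_ifs with h
  · rw [abs_of_nonneg (sub_nonneg.2 h)]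
    congr 1
    ring
  · rw [abs_of_neg (by linarith : x - round x < 0)]
    rw [← abs_neg]
    congr 1
    ring

lemma pt_cell (x a : ℝ) (h0 : 0 ≤ a) (h1 : a ≤ 1 / 2) : Cell x (pt x a) := by
  have hr := abs_le.1 (abs_sub_round x)
  unfold pt
  split_ifs with h
  · refine ⟨2 * round x, ?_, ?_, ?_, ?_⟩ <;> push_cast <;> linarith
  · refine ⟨2 * round x - 1, ?_, ?_, ?_, ?_⟩ <;> push_cast <;> linarith

lemma cell_refl (x : ℝ) : Cell x x := by
  have h1 := Int.floor_le (2 * x)
  have h2 := Int.lt_floor_add_one (2 * x)
  exact ⟨⌊2 * x⌋, by linarith, by linarith, by linarith, by linarith⟩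

lemma cell_symm {x y : ℝ} (h : Cell x y) : Cell y x := by
  obtain ⟨j, a, b, c, d⟩ := h
  exact ⟨j, c, d, a, b⟩

lemma med_A {α a b β v : ℝ} (hα : α ≤ β) (h : med α a b = β) (hv : v ≤ β) :
    med v (max a β) (max b β) = β := by
  unfold med at *
  grind

lemma med_B {α a b β : ℝ} (hα : β < α) (h : med α a b = β) : a ≤ β ∧ b ≤ β := by
  unfold med at *
  grind

lemma med_C {α a b β : ℝ} (hα : α < β) (h : med α a b = β) : β ≤ a ∧ β ≤ b := by
  unfold med at *
  grind

lemma med_D (v β : ℝ) : med v β β = β := by
  unfold med
  grind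

lemma med_E {α a b β v : ℝ} (hα : β ≤ α) (h : med α a b = β) (hv : β ≤ v) :
    med v (min a β) (min b β) = β := by
  unfold med at *
  grind

lemma med_mem {a b c : ℝ} (ha : 0 ≤ a) (hb : 0 ≤ b) (hc : 0 ≤ c) (ha' : a ≤ 1 / 2) (hb' : b ≤ 1 / 2)
    (hc' : c ≤ 1 / 2) : 0 ≤ med a b c ∧ med a b c ≤ 1 / 2 := by
  unfold med
  grind

lemma idx (i : Fin 3) : ∃ j k : Fin 3, j ≠ i ∧ k ≠ i ∧ j ≠ k ∧ (∀ l, l = i ∨ l = j ∨ l = k) ∧
    ∀ v : Fin 3 → ℝ, mm v = med (fo (v i)) (fo (v j)) (fo (v k)) := by
  have s1 : ∀ a b c : ℝ, med a b c = med b a c := by intro a b c; unfold med; grind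
  have s2 : ∀ a b c : ℝ, med a b c = med a c b := by intro a b c; unfold med; grind
  fin_cases i
  · exact ⟨1, 2, by decide, by decide, by decide, by decide, fun v => rfl⟩
  · exact ⟨0, 2, by decide, by decide, by decide, by decide, fun v => s1 _ _ _⟩
  · refine ⟨0, 1, by decide, by decide, by decide, by decide, fun v => ?_⟩
    change med (fo (v 0)) (fo (v 1)) (fo (v 2)) = med (fo (v 2)) (fo (v 0)) (fo (v 1))
    rw [s2, s1]

/-- the new values -/
lemma vals (x b aj ak β : ℝ) (hb : fo b = fo x) (hj0 : 0 ≤ aj) (hj1 : aj ≤ 1 / 2) (hk0 : 0 ≤ ak)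
    (hk1 : ak ≤ 1 / 2) (hβ : med (fo x) aj ak = β) :
    ∃ aj' ak' : ℝ, 0 ≤ aj' ∧ aj' ≤ 1 / 2 ∧ 0 ≤ ak' ∧ ak' ≤ 1 / 2 ∧ |aj' - aj| ≤ |b - x| ∧
      |ak' - ak| ≤ |b - x| ∧ ∀ t ∈ uIcc x b, med (fo t) aj' ak' = β := by
  have hm := med_mem (fo_nonneg x) hj0 hk0 (fo_le x) hj1 hk1
  rw [hβ] at hm
  by_cases hbx : b = x
  · subst hbx
    refine ⟨aj, ak, hj0, hj1, hk0, hk1, by simp, by simp, ?_⟩
    intro t ht
    rw [uIcc_self] at ht
    rw [ht]
    exact hβ
  by_cases hw : 1 / 2 ≤ |b - x|
  · refine ⟨β, β, hm.1, hm.2, hm.1, hm.2, ?_, ?_, fun t _ => med_D _ _⟩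
    · refine le_trans ?_ hw
      rw [abs_le]; constructor <;> linarith
    · refine le_trans ?_ hw
      rw [abs_le]; constructor <;> linarith
  push Not at hw
  -- two cases
  set m := round x with hmdef
  set m' := round b with hmdef'
  have hx := abs_le.1 (abs_sub_round x)
  have hbb := abs_le.1 (abs_sub_round b)
  rw [← hmdef] at hx
  rw [← hmdef'] at hbb
  have hwa := abs_lt.1 hw
  have e1 : fo x = |x - m| := rfl
  have e2 : fo b = |b - m'| := rfl
  have hdiff : m' = m ∨ m' = m + 1 ∨ m' = m - 1 := by
    have h1 : (m' : ℝ) - m < 2 := by linarith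
    have h2 : -2 < (m' : ℝ) - m := by linarith
    have h1' : m' - m < 2 := by exact_mod_cast h1
    have h2' : -2 < m' - m := by exact_mod_cast h2
    omega
  have habs : b - m' = x - m ∨ b - m' = -(x - m) := by
    rw [e1, e2] at hb
    exact abs_eq_abs.1 hb
  -- the integer wall or the half-integer wall
  have key : (b - m = -(x - m)) ∨ (∃ c : ℝ, (∃ n : ℤ, c = n + 1 / 2) ∧ b - c = -(x - c)) := by
    rcases hdiff with h | h | h
    · rw [h] at habs
      rcases habs with h3 | h3
      · exact absurd (by linarith) hbx
      · exact Or.inl h3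
    · have hr : (m' : ℝ) = m + 1 := by exact_mod_cast h
      rw [hr] at habs
      rcases habs with h3 | h3
      · exfalso; linarith
      · exact Or.inr ⟨m + 1 / 2, ⟨m, rfl⟩, by linarith⟩
    · have hr : (m' : ℝ) = m - 1 := by exact_mod_cast h
      rw [hr] at habs
      rcases habs with h3 | h3
      · exfalso; linarith
      · exact Or.inr ⟨((m - 1 : ℤ) : ℝ) + 1 / 2, ⟨m - 1, rfl⟩, by push_cast; linarith⟩
  rcases key with h | ⟨c, ⟨n, hn⟩, h⟩
  · -- integer wall
    have hα : fo x ≤ |b - x| := by
      rw [e1]
      have : b - x = -2 * (x - m) := by linarith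
      rw [this, abs_mul]
      have := abs_nonneg (x - m)
      norm_num
      linarith
    have hv : ∀ t ∈ uIcc x b, fo t ≤ fo x := by
      intro t ht
      have h1 : fo t ≤ |t - m| := round_le t m
      refine le_trans h1 ?_
      rw [e1, abs_le]
      rw [mem_uIcc] at ht
      rcases ht with ht | ht
      · have h5 : x - m ≤ 0 := by linarith
        rw [abs_of_nonpos h5]
        constructor <;> linarith
      · have h5 : 0 ≤ x - m := by linarith
        rw [abs_of_nonneg h5]
        constructor <;> linarith
    rcases le_or_gt (fo x) β with h1 | h1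
    · refine ⟨max aj β, max ak β, le_max_of_le_left hj0, max_le hj1 hm.2, le_max_of_le_left hk0,
        max_le hk1 hm.2, ?_, ?_, fun t ht => med_A h1 hβ (le_trans (hv t ht) h1)⟩
      · rcases eq_or_lt_of_le h1 with h2 | h2
        · rw [abs_le]
          constructor
          · have := le_max_left aj β
            have := abs_nonneg (b - x)
            linarith
          · have : max aj β ≤ aj + β := max_le (by linarith) (by linarith)
            linarith
        · have := (med_C h2 hβ).1
          rw [max_eq_left this]
          simp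
      · rcases eq_or_lt_of_le h1 with h2 | h2
        · rw [abs_le]
          constructor
          · have := le_max_left ak β
            have := abs_nonneg (b - x)
            linarith
          · have : max ak β ≤ ak + β := max_le (by linarith) (by linarith)
            linarith
        · have := (med_C h2 hβ).2
          rw [max_eq_left this]
          simp
    · have h2 := med_B h1 hβ
      refine ⟨β, β, hm.1, hm.2, hm.1, hm.2, ?_, ?_, fun t _ => med_D _ _⟩
      · rw [abs_of_nonneg (by linarith [h2.1])]
        linarith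
      · rw [abs_of_nonneg (by linarith [h2.2])]
        linarith
  · -- half integer wall
    have hlow : ∀ t : ℝ, 1 / 2 - |t - c| ≤ fo t := by
      intro t
      have h1 : (1 / 2 : ℝ) ≤ |((round t : ℤ) : ℝ) - c| := by
        rw [hn]
        rcases lt_or_ge n (round t) with h3 | h3
        · have : (n : ℝ) + 1 ≤ ((round t : ℤ) : ℝ) := by exact_mod_cast h3
          rw [abs_of_nonneg (by linarith)]
          linarith
        · have : ((round t : ℤ) : ℝ) ≤ n := by exact_mod_cast h3
          rw [abs_of_nonpos (by linarith)]
          linarith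
      have h2 : |((round t : ℤ) : ℝ) - c| ≤ |t - round t| + |t - c| := by
        have : ((round t : ℤ) : ℝ) - c = -(t - round t) + (t - c) := by ring
        rw [this]
        calc |-(t - round t) + (t - c)| ≤ |-(t - round t)| + |t - c| := abs_add_le _ _
          _ = _ := by rw [abs_neg]
      have : fo t = |t - round t| := rfl
      rw [this]
      linarith
    have hxc : |x - c| = |b - x| / 2 := by
      have : b - x = -2 * (x - c) := by linarith
      rw [this, abs_mul]
      norm_num
    have hα : 1 / 2 - fo x ≤ |b - x| := by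
      have := hlow x
      have := abs_nonneg (b - x)
      linarith
    have hfx : fo x = 1 / 2 - |x - c| := by
      apply le_antisymm _ (hlow x)
      -- |x - c| < 1/4, so the nearest integer is at distance `1/2 - |x - c|`
      rcases le_total x c with h4 | h4
      · have h5 : fo x ≤ |x - n| := round_le x n
        refine le_trans h5 ?_
        rw [abs_of_nonpos (by linarith : x - c ≤ 0)]
        have h6 : |x - c| < 1 / 4 := by rw [hxc]; linarith
        rw [abs_of_nonpos (by linarith : x - c ≤ 0)] at h6
        rw [abs_of_nonneg (by linarith : 0 ≤ x - n)]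
        linarith
      · have h5 : fo x ≤ |x - (n + 1 : ℤ)| := round_le x (n + 1)
        refine le_trans h5 ?_
        rw [abs_of_nonneg (by linarith : 0 ≤ x - c)]
        have h6 : |x - c| < 1 / 4 := by rw [hxc]; linarith
        rw [abs_of_nonneg (by linarith : 0 ≤ x - c)] at h6
        push_cast
        rw [abs_of_nonpos (by linarith : x - (n + 1) ≤ 0)]
        linarith
    have hv : ∀ t ∈ uIcc x b, fo x ≤ fo t := by
      intro t ht
      refine le_trans ?_ (hlow t)
      rw [hfx]
      have : |t - c| ≤ |x - c| := by
        rw [abs_le]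
        rw [mem_uIcc] at ht
        rcases ht with ht | ht
        · have h5 : x - c ≤ 0 := by linarith
          rw [abs_of_nonpos h5]
          constructor <;> linarith
        · have h5 : 0 ≤ x - c := by linarith
          rw [abs_of_nonneg h5]
          constructor <;> linarith
      linarith
    rcases le_or_gt β (fo x) with h1 | h1
    · refine ⟨min aj β, min ak β, le_min hj0 hm.1, min_le_of_left_le hj1, le_min hk0 hm.1,
        min_le_of_left_le hk1, ?_, ?_, fun t ht => med_E h1 hβ (le_trans h1 (hv t ht))⟩
      · rcases eq_or_lt_of_le h1 with h2 | h2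
        · rw [abs_le]
          constructor
          · have : aj - (1 / 2 - β) ≤ min aj β := le_min (by linarith) (by linarith)
            linarith
          · have := min_le_left aj β
            have := abs_nonneg (b - x)
            linarith
        · have := (med_B h2 hβ).1
          rw [min_eq_left this]
          simp
      · rcases eq_or_lt_of_le h1 with h2 | h2
        · rw [abs_le]
          constructor
          · have : ak - (1 / 2 - β) ≤ min ak β := le_min (by linarith) (by linarith)
            linarith
          · have := min_le_left ak β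
            have := abs_nonneg (b - x)
            linarith
        · have := (med_B h2 hβ).2
          rw [min_eq_left this]
          simp
    · have h2 := med_C h1 hβ
      refine ⟨β, β, hm.1, hm.2, hm.1, hm.2, ?_, ?_, fun t _ => med_D _ _⟩
      · rw [abs_of_nonpos (by linarith [h2.1])]
        linarith
      · rw [abs_of_nonpos (by linarith [h2.2])]
        linarith

lemma uIcc_dist {v x y : ℝ} (h : v ∈ uIcc x y) : |v - x| ≤ |y - x| := by
  rw [mem_uIcc] at h
  rcases h with h | h
  · rw [abs_of_nonneg (by linarith), abs_of_nonneg (by linarith)]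
    linarith
  · rw [abs_of_nonpos (by linarith), abs_of_nonpos (by linarith)]
    linarith

theorem t (hCL : S_CL) : S_CR := by
  intro z i b hb
  obtain ⟨j, k, hji, hki, hjk, hl, hmm⟩ := idx i
  obtain ⟨aj', ak', hj0, hj1, hk0, hk1, hdj, hdk, hmed⟩ := vals (z i) b (fo (z j)) (fo (z k)) (mm z) hb
    (fo_nonneg _) (fo_le _) (fo_nonneg _) (fo_le _) (hmm z).symm
  set S : Set (Fin 3 → ℝ) := {v : Fin 3 → ℝ | mm v = mm z ∧ v i ∈ uIcc (z i) b ∧
    ∀ j, j ≠ i → |v j - z j| ≤ |b - z i|} with hS
  let z1 : Fin 3 → ℝ := Function.update (Function.update z j (pt (z j) aj')) k (pt (z k) ak')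
  have z1i : z1 i = z i := by
    simp only [z1]
    rw [Function.update_of_ne hki.symm, Function.update_of_ne hji.symm]
  have z1j : z1 j = pt (z j) aj' := by
    simp only [z1]
    rw [Function.update_of_ne hjk, Function.update_self]
  have z1k : z1 k = pt (z k) ak' := by
    simp only [z1]
    rw [Function.update_self]
  have hfj : fo (z1 j) = aj' := by rw [z1j, pt_fo _ _ hj0 hj1]
  have hfk : fo (z1 k) = ak' := by rw [z1k, pt_fo _ _ hk0 hk1]
  have hdist : ∀ l, l ≠ i → |z1 l - z l| ≤ |b - z i| := by
    intro l hli
    rcases hl l with h | h | h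
    · exact absurd h hli
    · rw [h, z1j, pt_dist]; exact hdj
    · rw [h, z1k, pt_dist]; exact hdk
  have hcell : ∀ l, Cell (z l) (z1 l) := by
    intro l
    rcases hl l with h | h | h
    · rw [h, z1i]; exact cell_refl _
    · rw [h, z1j]; exact pt_cell _ _ hj0 hj1
    · rw [h, z1k]; exact pt_cell _ _ hk0 hk1
  have hrun : ∀ s ∈ uIcc (z i) b, mm (Function.update z1 i s) = mm z := by
    intro s hs
    rw [hmm, Function.update_self, Function.update_of_ne hji, Function.update_of_ne hki, hfj, hfk]
    exact hmed s hs
  have hz1 : mm z1 = mm z := by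
    have := hrun (z i) left_mem_uIcc
    rwa [← z1i, Function.update_eq_self] at this
  have hzb : mm (Function.update z i b) = mm z := by
    rw [hmm, Function.update_self, Function.update_of_ne hji, Function.update_of_ne hki, hb, ← hmm]
  have J1 : JoinedIn S z z1 := by
    refine (hCL z z1 hcell).mono ?_
    rintro v ⟨hv, hvm⟩
    rw [hz1, uIcc_self] at hvm
    refine ⟨hvm, ?_, fun l hli => le_trans (uIcc_dist (hv l)) (hdist l hli)⟩
    have := hv i
    rw [z1i, uIcc_self] at this
    rw [this]
    exact left_mem_uIcc
  have J2 : JoinedIn S z1 (Function.update z1 i b) := by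
    let γ : ℝ → (Fin 3 → ℝ) := fun s => Function.update z1 i ((1 - s) * z i + s * b)
    have hγ : Continuous γ := by
      apply Continuous.update continuous_const
      fun_prop
    have h0 : γ 0 = z1 := by
      simp only [γ]
      rw [sub_zero, one_mul, zero_mul, add_zero, ← z1i, Function.update_eq_self]
    have h1 : γ 1 = Function.update z1 i b := by
      simp only [γ]
      rw [sub_self, zero_mul, one_mul, zero_add]
    have hmem : ∀ s ∈ Icc (0 : ℝ) 1, γ s ∈ S := by
      intro s hs
      have hs' : (1 - s) * z i + s * b ∈ uIcc (z i) b := by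
        rw [mem_uIcc]
        rcases le_total (z i) b with h | h
        · left
          constructor <;> nlinarith [hs.1, hs.2]
        · right
          constructor <;> nlinarith [hs.1, hs.2]
      refine ⟨hrun _ hs', ?_, ?_⟩
      · simp only [γ]
        rw [Function.update_self]
        exact hs'
      · intro l hli
        simp only [γ]
        rw [Function.update_of_ne hli]
        exact hdist l hli
    have := JoinedIn.ofLine (F := S) (f := γ) (x := z1) (y := Function.update z1 i b) hγ.continuousOn h0 h1 ?_
    · exact this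
    · rintro _ ⟨s, hs, rfl⟩
      exact hmem s hs
  have J3 : JoinedIn S (Function.update z1 i b) (Function.update z i b) := by
    have hc : ∀ l, Cell (Function.update z1 i b l) (Function.update z i b l) := by
      intro l
      by_cases h : l = i
      · rw [h, Function.update_self, Function.update_self]; exact cell_refl _
      · rw [Function.update_of_ne h, Function.update_of_ne h]
        exact cell_symm (hcell l)
    refine (hCL _ _ hc).mono ?_
    rintro v ⟨hv, hvm⟩
    rw [hrun b right_mem_uIcc, hzb, uIcc_self] at hvm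
    refine ⟨hvm, ?_, fun l hli => ?_⟩
    · have := hv i
      rw [Function.update_self, Function.update_self, uIcc_self] at this
      rw [this]
      exact right_mem_uIcc
    · have := hv l
      rw [Function.update_of_ne hli, Function.update_of_ne hli, uIcc_comm] at this
      exact le_trans (uIcc_dist this) (hdist l hli)
  exact (J1.trans J2).trans J3

end Pool.Agent.Helper85.TC.CR
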